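import Pool.Agent.V5helper49.PTR.Stm

/-!
# Project PTR, job REC: the recursion
-/

set_option autoImplicit false

open Finset Filter

namespace V5helper1.PTR

open Pool.Agent.V5helper49.PTR

theorem t_REC : S_REC := by
  classical
  intro M s κ hκ hstep
  obtain ⟨N₀, hstep⟩ := hstep
  have hnext : ∀ q : {q : ℕ × Finset ℕ // N₀ ≤ q.1 ∧ q.2 ⊆ Icc 1 q.1 ∧
      (q.2.card : ℝ) ≤ (q.1 : ℝ) ^ (1 / 10 : ℝ) ∧ Adm q.2},
      ∃ q' : {q : ℕ × Finset ℕ // N₀ ≤ q.1 ∧ q.2 ⊆ Icc 1 q.1 ∧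
      (q.2.card : ℝ) ≤ (q.1 : ℝ) ^ (1 / 10 : ℝ) ∧ Adm q.2},
      q.1.1 < q'.1.1 ∧ q.1.2 ⊆ q'.1.2 ∧ (∀ k ∈ q'.1.2, k ≤ q.1.1 → k ∈ q.1.2) ∧
      (∀ k ∈ q'.1.2, q'.1.1 - k ∈ M) ∧
      ((q'.1.1 : ℕ) : ℝ) ^ (κ * ((s : ℝ) + 1)) ≤ (q'.1.2.card : ℝ) ∧
      ∀ x : ℕ, ((q.1.1 : ℕ) : ℝ) ^ (s + 1) ≤ (x : ℝ) → x ≤ q'.1.1 →
        (x : ℝ) ^ κ ≤ ((q'.1.2.filter (fun k => k ≤ x)).card : ℝ) := by
    rintro ⟨⟨N, F⟩, h1, h2, h3, h4⟩
    obtain ⟨N', F', g1, g2, g3, g4, g5, g6, g7, g8, g9⟩ := hstep N h1 F h2 h3 h4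
    exact ⟨⟨⟨N', F'⟩, h1.trans g1.le, g2, g3, g4⟩, g1, g5, g6, g7, g8, g9⟩
  choose nx p1 p2 p3 p4 p5 p6 using hnext
  obtain ⟨N, F, a1, a2, a3, a4, a5, a6, a7⟩ : ∃ (N : ℕ → ℕ) (F : ℕ → Finset ℕ),
      (∀ i, N i < N (i + 1)) ∧ (∀ i, F i ⊆ Icc 1 (N i)) ∧ (∀ i, F i ⊆ F (i + 1)) ∧
      (∀ i, ∀ k ∈ F (i + 1), k ≤ N i → k ∈ F i) ∧ (∀ i, ∀ k ∈ F (i + 1), N (i + 1) - k ∈ M) ∧
      (∀ i, ((N (i + 1) : ℕ) : ℝ) ^ (κ * ((s : ℝ) + 1)) ≤ ((F (i + 1)).card : ℝ)) ∧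
      ∀ i, ∀ x : ℕ, ((N i : ℕ) : ℝ) ^ (s + 1) ≤ (x : ℝ) → x ≤ N (i + 1) →
        (x : ℝ) ^ κ ≤ (((F (i + 1)).filter (fun k => k ≤ x)).card : ℝ) := by
    have hadm : Adm (∅ : Finset ℕ) := fun p hp => ⟨0, hp.pos, fun t ht => by simp at ht⟩
    have h0 : N₀ ≤ ((N₀, (∅ : Finset ℕ)) : ℕ × Finset ℕ).1 ∧
        ((N₀, (∅ : Finset ℕ)) : ℕ × Finset ℕ).2 ⊆ Icc 1 ((N₀, (∅ : Finset ℕ)) : ℕ × Finset ℕ).1 ∧
        ((((N₀, (∅ : Finset ℕ)) : ℕ × Finset ℕ).2.card : ℕ) : ℝ) ≤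
          ((((N₀, (∅ : Finset ℕ)) : ℕ × Finset ℕ).1 : ℕ) : ℝ) ^ (1 / 10 : ℝ) ∧
        Adm ((N₀, (∅ : Finset ℕ)) : ℕ × Finset ℕ).2 := by
      refine ⟨le_rfl, by simp, ?_, hadm⟩
      simp only [card_empty, Nat.cast_zero]
      positivity
    refine ⟨fun i => ((nx^[i] ⟨(N₀, ∅), h0⟩).1).1, fun i => ((nx^[i] ⟨(N₀, ∅), h0⟩).1).2,
      fun i => ?_, fun i => ?_, fun i => ?_, fun i => ?_, fun i => ?_, fun i => ?_, fun i => ?_⟩
    · simp only [Function.iterate_succ_apply']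
      exact p1 _
    · exact (nx^[i] ⟨(N₀, ∅), h0⟩).2.2.1
    · simp only [Function.iterate_succ_apply']
      exact p2 _
    · simp only [Function.iterate_succ_apply']
      exact p3 _
    · simp only [Function.iterate_succ_apply']
      exact p4 _
    · simp only [Function.iterate_succ_apply']
      exact p5 _
    · simp only [Function.iterate_succ_apply']
      exact p6 _
  have hN : StrictMono N := strictMono_nat_of_lt_succ a1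
  have hF : Monotone F := monotone_nat_of_le_succ a3
  have hA : ∀ i j, i ≤ j → ∀ k ∈ F j, k ≤ N i → k ∈ F i := by
    intro i j hij
    induction j, hij using Nat.le_induction with
    | base => exact fun k hk _ => hk
    | succ j hij ih =>
      intro k hk hki
      exact ih k (a4 j k hk (hki.trans (hN.monotone hij))) hki
  refine ⟨{k | ∃ i, k ∈ F i}, ?_, ?_⟩
  · refine Set.infinite_of_injective_forall_mem (f := fun i : ℕ => N (i + 1)) ?_ ?_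
    · intro i j hij
      have := hN.injective hij
      omega
    · intro i k hk h0 hk2
      obtain ⟨j, hj⟩ := hk
      have h1 : k ∈ F (i + 1) := by
        rcases le_total j (i + 1) with h | h
        · exact hF h hj
        · exact hA (i + 1) j h k hj hk2.le
      exact a5 i k h1
  · filter_upwards [eventually_ge_atTop (N 1)] with x hx
    have hex : ∃ i, x < N i := ⟨x + 1, lt_of_lt_of_le (Nat.lt_succ_self x) (hN.id_le (x + 1))⟩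
    obtain ⟨j, hj, hjm⟩ : ∃ j, x < N j ∧ ∀ i < j, N i ≤ x :=
      ⟨Nat.find hex, Nat.find_spec hex, fun i hi => not_lt.1 (Nat.find_min hex hi)⟩
    have hj2 : 2 ≤ j := by
      by_contra hcon
      have h1 : N j ≤ N 1 := hN.monotone (by omega)
      omega
    obtain ⟨i, rfl⟩ : ∃ i, j = i + 2 := ⟨j - 2, by omega⟩
    have hNi : N (i + 1) ≤ x := hjm (i + 1) (by omega)
    rcases le_total (((N (i + 1) : ℕ) : ℝ) ^ (s + 1)) (x : ℝ) with h | h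
    · refine (a7 (i + 1) x h hj.le).trans ?_
      unfold cnt
      refine Nat.cast_le.2 (Finset.card_le_card fun k hk => ?_)
      have h1 := (Finset.mem_filter.1 hk)
      have h2 := Finset.mem_Icc.1 (a2 _ h1.1)
      exact Finset.mem_filter.2 ⟨Finset.mem_Icc.2 ⟨h2.1, h1.2⟩, ⟨_, h1.1⟩⟩
    · have h1 : (x : ℝ) ^ κ ≤ (((N (i + 1) : ℕ) : ℝ) ^ (s + 1)) ^ κ :=
        Real.rpow_le_rpow (Nat.cast_nonneg x) h hκ.le
      have h2 : (((N (i + 1) : ℕ) : ℝ) ^ (s + 1)) ^ κ =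
          ((N (i + 1) : ℕ) : ℝ) ^ (κ * ((s : ℝ) + 1)) := by
        rw [← Real.rpow_natCast, ← Real.rpow_mul (Nat.cast_nonneg _)]
        congr 1
        push_cast
        ring
      rw [h2] at h1
      refine (h1.trans (a6 i)).trans ?_
      unfold cnt
      refine Nat.cast_le.2 (Finset.card_le_card fun k hk => ?_)
      have h2 := Finset.mem_Icc.1 (a2 _ hk)
      exact Finset.mem_filter.2 ⟨Finset.mem_Icc.2 ⟨h2.1, h2.2.trans hNi⟩, ⟨_, hk⟩⟩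

end V5helper1.PTR
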